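import Mathlib
import Pool.Agent.Q81.Har12

/-!
# The best constant in the weighted Hardy inequality with weight `(1 + |x|²)^α`
-/

namespace Pool.Agent.Results.MP_5b99fd_an.BestConstant

open MeasureTheory Set
open scoped ContDiff Gradient

/-- The admissible functions: nonzero real functions in `C_c^∞(ℝⁿ)`, which in addition satisfy
`∫ (1 + |x|²)^(α - 1) u(x) dx = 0` when `α < -(n - 2) / 2`. -/
def Admissible (n : ℕ) (α : ℝ) : Set (EuclideanSpace ℝ (Fin n) → ℝ) :=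
  {u | u ≠ 0 ∧ ContDiff ℝ ∞ u ∧ HasCompactSupport u ∧
    (α < -((n : ℝ) - 2) / 2 → ∫ x, (1 + ‖x‖ ^ 2) ^ (α - 1) * u x = 0)}

/-- The quotient `∫ (1 + |x|²)^α |∇u|² dx / ∫ (1 + |x|²)^(α - 1) u² dx`. -/
noncomputable def quotient (n : ℕ) (α : ℝ) (u : EuclideanSpace ℝ (Fin n) → ℝ) : ℝ :=
  (∫ x, (1 + ‖x‖ ^ 2) ^ α * ‖∇ u x‖ ^ 2) / ∫ x, (1 + ‖x‖ ^ 2) ^ (α - 1) * u x ^ 2

/-- The best constant `C(α, n)`: the infimum of the quotients over the admissible functions. -/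
noncomputable def bestC (α : ℝ) (n : ℕ) : ℝ := sInf (quotient n α '' Admissible n α)

lemma quotient_eq (n : ℕ) (α : ℝ) (u : EuclideanSpace ℝ (Fin n) → ℝ) :
    quotient n α u = Q81.Har.En α u / Q81.Har.Nm α u := by
  have h : ∀ x, ‖∇ u x‖ = ‖fderiv ℝ u x‖ := fun x => by
    rw [gradient, LinearIsometryEquiv.norm_map]
  unfold quotient Q81.Har.En Q81.Har.Nm Q81.Har.w
  simp only [h]

lemma eq_of_best {n : ℕ} {α v : ℝ} (h : Q81.Har.Best n α v (α < -((n : ℝ) - 2) / 2)) :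
    bestC α n = v := by
  obtain ⟨h1, h2⟩ := h
  have hpos : ∀ u ∈ Admissible n α, 0 < Q81.Har.Nm α u := by
    rintro u ⟨hne, hu, hc, -⟩
    obtain ⟨x₀, hx₀⟩ : ∃ x, u x ≠ 0 := by
      by_contra hcon
      push Not at hcon
      exact hne (funext hcon)
    have hcont : Continuous fun x => Q81.Har.w (α - 1) x * u x ^ 2 :=
      (Q81.Har.continuous_w _).mul (hu.continuous.pow 2)
    unfold Q81.Har.Nm
    rw [integral_pos_iff_support_of_nonneg
      (fun x => mul_nonneg (Q81.Har.w_pos _ _).le (sq_nonneg _))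
      (Q81.Har.integrable_Nm _ hu.continuous hc)]
    have hopen : IsOpen (Function.support fun x => Q81.Har.w (α - 1) x * u x ^ 2) :=
      isOpen_compl_singleton.preimage hcont
    refine hopen.measure_pos volume ⟨x₀, ?_⟩
    rw [Function.mem_support]
    exact mul_ne_zero (Q81.Har.w_pos _ _).ne' (pow_ne_zero 2 hx₀)
  have hadm : ∀ ε : ℝ, 0 < ε → ∃ u ∈ Admissible n α, quotient n α u ≤ v + ε := by
    intro ε hε
    obtain ⟨u, a1, a2, a3, a4, a5⟩ := h2 ε hε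
    refine ⟨u, ⟨?_, a1, a2, a3⟩, ?_⟩
    · rintro rfl
      simp [Q81.Har.Nm] at a4
    · rw [quotient_eq, div_le_iff₀ a4]
      exact a5
  refine csInf_eq_of_forall_ge_of_forall_gt_exists_lt ?_ ?_ ?_
  · obtain ⟨u, hu, -⟩ := hadm 1 one_pos
    exact ⟨_, u, hu, rfl⟩
  · rintro _ ⟨u, hu, rfl⟩
    rw [quotient_eq, le_div_iff₀ (hpos u hu)]
    exact h1 u hu.2.1 hu.2.2.1 hu.2.2.2
  · intro b hb
    obtain ⟨u, hu, hq⟩ := hadm ((b - v) / 2) (by linarith)
    exact ⟨_, ⟨u, hu, rfl⟩, by linarith⟩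

/-- The best constant for all `n ≥ 3`, all `α > 1` and all `α < -(n - 2) / 2`. -/
theorem result (n : ℕ) (hn : 3 ≤ n) (α : ℝ) :
    (1 < α → α ≤ 1 + (n : ℝ) / 2 → bestC α n = (n + 2 * α - 2) ^ 2 / 4) ∧
    (1 + (n : ℝ) / 2 ≤ α → bestC α n = 2 * n * (α - 1)) ∧
    (-((n : ℝ) + 2) / 2 ≤ α → α < -((n : ℝ) - 2) / 2 →
      bestC α n = (n + 2 * α - 2) ^ 2 / 4) ∧
    (-(n : ℝ) ≤ α → α ≤ -((n : ℝ) + 2) / 2 → bestC α n = -4 * α - 2 * n) ∧
    (α ≤ -(n : ℝ) → bestC α n = -2 * α) := by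
  have hn0 : (3 : ℝ) ≤ n := by exact_mod_cast hn
  have hnt : Nontrivial (Q81.Har.E n) := by
    have : Nonempty (Fin n) := ⟨⟨0, by omega⟩⟩
    infer_instance
  refine ⟨fun h1 h2 => ?_, fun h1 => ?_, fun h1 h2 => ?_, fun h1 h2 => ?_, fun h1 => ?_⟩
  · exact eq_of_best (Q81.Har.best_one (by omega) h1 h2 (by rw [not_lt]; linarith))
  · exact eq_of_best (Q81.Har.best_two (by omega) h1 (by rw [not_lt]; linarith))
  · exact eq_of_best (Q81.Har.best_three (by omega) h2 h1 h2)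
  · exact eq_of_best (Q81.Har.best_four (by omega) h2 h1 (by linarith))
  · exact eq_of_best (Q81.Har.best_five (by omega) h1 (by linarith))

end Pool.Agent.Results.MP_5b99fd_an.BestConstant
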